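import Pool.Agent.H850.GN.Main

/-!
# MP_5ac32f_an: continuous chains of hyperinvariant subspaces for typical operators of the
hyperfinite factor with Brown measure at one point

Let `M` be the hyperfinite II_1 factor in its standard representation on `H` (`HypData`), `Ball` the
unit ball of `M` with the metric of the 2-norm `‖x‖₂ = ‖x Ω‖`, and `QN` the set of the contractions
in `M` whose Brown measure is the point mass at `0`.  Haagerup and Schultz found hyperinvariant
subspaces for the operators of `M` whose Brown measure is not a point mass; `QN` is the case left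
open.  `QN` is a `G_δ` in the complete space `Ball`, hence a Baire space.

For a typical `T` in `QN` there is a strictly increasing chain of closed subspaces `V t` of `H`,
`0 ≤ t ≤ 1`, from `{0}` to `H`, each invariant under **every bounded operator on `H`** which commutes
with `T`; the projection onto `V t` belongs to `M` and has trace `t`, these projections generate a
maximal abelian subalgebra of `M`, and `T` generates `M`.

Proof.  The starting library `Pool.Agent.H751R2.GN` (paper proof: helpers 751, 857; handed in with a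
corollary as `MP_49c4d9_an.TypicalInHyperfiniteFactor`) gives such projections invariant under the
operators *of `M`* commuting with `T`: they are limits of the projections onto the kernels of powers
`N_n ^ i` of nilpotent matrices `N_n` converging rapidly to `T`.  New here (`Pool.Agent.H850.GN`): if `T`
is close enough to the nilpotent matrix `N_n`, then for all `i` the projection onto the graph of
`c T ^ i` (`c` large) is close to `ker (N_n ^ i) ⊕ *` in the 2-norm, and bounded sequences of `M` that
converge in the 2-norm converge strongly on `H`.  A bounded operator `S` on `H` commuting with `T`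
leaves the graphs of `c T ^ i` invariant, also if it is not in `M`; passing to the limit, it leaves `V t`
invariant.
-/

set_option autoImplicit false

open scoped ComplexOrder
open Filter Topology Pool.Agent.H751R2.GN

namespace Pool.Agent.Results.MP_5ac32f_an.HyperinvariantNests

variable {H : Type} [NormedAddCommGroup H] [InnerProductSpace ℂ H] [CompleteSpace H]

/-- `T` generates `M`: every operator commuting with `T` and its adjoint commutes with `M`. -/
def Generates (D : HypData H) (T : H →L[ℂ] H) : Prop :=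
  ∀ S : H →L[ℂ] H, S * T = T * S → S * star T = star T * S → ∀ x ∈ D.M, S * x = x * S

/-- The closed subspaces `V t`, `0 ≤ t ≤ 1`, increase strictly from `{0}` to `H` and are invariant
under every bounded operator on `H` commuting with `T`. -/
def HyperinvariantChain (T : H →L[ℂ] H) (V : ℝ → Submodule ℂ H) : Prop :=
  V 0 = ⊥ ∧ V 1 = ⊤ ∧ (∀ s t : ℝ, 0 ≤ s → s < t → t ≤ 1 → V s < V t) ∧
    ∀ t : ℝ, 0 ≤ t → t ≤ 1 → IsClosed (V t : Set H) ∧
      ∀ S : H →L[ℂ] H, S * T = T * S → ∀ v ∈ V t, S v ∈ V t

/-- `P t` is the orthogonal projection onto `V t`, belongs to `M` and has trace `t`, `0 ≤ t ≤ 1`. -/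
def ProjectionsInM (D : HypData H) (V : ℝ → Submodule ℂ H) (P : ℝ → (H →L[ℂ] H)) : Prop :=
  ∀ t : ℝ, 0 ≤ t → t ≤ 1 → P t ∈ D.M ∧ IsStarProjection (P t) ∧ (∀ v, v ∈ V t ↔ P t v = v) ∧
    inner ℂ D.Ω (P t D.Ω) = (t : ℂ)

/-- The projections `P t` generate a maximal abelian subalgebra of `M`: every element of `M` commuting
with all of them is a 2-norm limit of linear combinations of their increments. -/
def GenerateMasa (D : HypData H) (P : ℝ → (H →L[ℂ] H)) : Prop :=
  ∀ x ∈ D.M, (∀ t : ℝ, 0 ≤ t → t ≤ 1 → x * P t = P t * x) → ∀ ε : ℝ, 0 < ε →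
    ∃ (K : ℕ) (c : ℕ → ℂ), 0 < K ∧
      ‖x D.Ω - (∑ j ∈ Finset.range K, c j • (P (((j : ℝ) + 1) / K) - P ((j : ℝ) / K))) D.Ω‖ < ε

/-- **Typical operators of the hyperfinite factor with Brown measure at `0` have continuous chains
of hyperinvariant subspaces.** -/
theorem result (H : Type) [NormedAddCommGroup H] [InnerProductSpace ℂ H] [CompleteSpace H]
    (D : HypData H) :
    CompleteSpace (Ball D) ∧ (∀ S T : Ball D, dist S T = 0 → S = T) ∧
      Nonempty (QN D) ∧ IsGδ (QN D) ∧ BaireSpace (QN D) ∧
      {T : QN D | (∃ (V : ℝ → Submodule ℂ H) (P : ℝ → (H →L[ℂ] H)),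
        HyperinvariantChain T.1.1 V ∧ ProjectionsInM D V P ∧ GenerateMasa D P) ∧
        Generates D T.1.1} ∈ residual (QN D) := by
  obtain ⟨h1, h2, h3, h4, h5, h6⟩ := Pool.Agent.H850.GN.mainB H D
  refine ⟨h1, h2, h3, h4, h5, Filter.mem_of_superset h6 ?_⟩
  rintro T ⟨⟨P, hP, hm, hmasa⟩, hgen⟩
  refine ⟨⟨fun t => LinearMap.range (P t : H →ₗ[ℂ] H), P, ?_, ?_, hmasa⟩, hgen⟩
  · have happ : ∀ {a b : H →L[ℂ] H}, a = b → ∀ v, a v = b v := fun h v => by rw [h]
    have hmem : ∀ t, 0 ≤ t → t ≤ 1 → ∀ v : H, v ∈ LinearMap.range (P t : H →ₗ[ℂ] H) ↔ P t v = v := by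
      intro t h0 h1 v
      constructor
      · rintro ⟨w, rfl⟩
        exact happ (hP t h0 h1).2.2.1 w
      · intro h; exact ⟨v, h⟩
    have hle : ∀ s t : ℝ, 0 ≤ s → s ≤ t → t ≤ 1 →
        LinearMap.range (P s : H →ₗ[ℂ] H) ≤ LinearMap.range (P t : H →ₗ[ℂ] H) := by
      intro s t h0 hst h1 v hv
      rw [hmem s h0 (hst.trans h1)] at hv
      rw [hmem t (h0.trans hst) h1, ← hv]
      exact happ (hm s t h0 hst h1) v
    -- projections with the same range have the same trace
    have heq : ∀ s t : ℝ, 0 ≤ s → s ≤ t → t ≤ 1 →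
        LinearMap.range (P t : H →ₗ[ℂ] H) ≤ LinearMap.range (P s : H →ₗ[ℂ] H) → t ≤ s := by
      intro s t h0 hst h1 h
      have h3 : P s * P t = P t := by
        ext v
        have h4 : P t v ∈ LinearMap.range (P s : H →ₗ[ℂ] H) := h ⟨v, rfl⟩
        exact (hmem s h0 (hst.trans h1) _).mp h4
      have h4 := hm s t h0 hst h1
      have hs := hP s h0 (hst.trans h1)
      have ht := hP t (h0.trans hst) h1
      have h5 : P t * P s = P t := by
        have := congrArg star h3
        rwa [star_mul, hs.2.1, ht.2.1] at this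
      have h6 : P s = P t := by rw [← h4, h5]
      have h7 := ht.2.2.2.1
      rw [← h6, hs.2.2.2.1] at h7
      exact le_of_eq (by exact_mod_cast h7.symm)
    have hΩ : inner ℂ D.Ω D.Ω = (1 : ℂ) := by
      rw [inner_self_eq_norm_sq_to_K, D.norm_Ω]; norm_num
    refine ⟨?_, ?_, ?_, ?_⟩
    · -- `P 0 = 0`
      have h0 := hP 0 le_rfl zero_le_one
      have h7 : ‖P 0 D.Ω‖ ^ 2 = 0 := by
        have h8 : inner ℂ (P 0 D.Ω) (P 0 D.Ω) = (0 : ℂ) := by
          have h9 : inner ℂ (P 0 D.Ω) (P 0 D.Ω) = inner ℂ D.Ω ((star (P 0) * P 0) D.Ω) := by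
            rw [ContinuousLinearMap.star_eq_adjoint]
            exact (ContinuousLinearMap.adjoint_inner_right _ _ _).symm
          rw [h9, h0.2.1, h0.2.2.1, h0.2.2.2.1]
          norm_num
        rw [inner_self_eq_zero.mp h8, norm_zero]; norm_num
      have h8 : P 0 D.Ω = 0 := by
        rw [← norm_eq_zero]
        exact pow_eq_zero_iff (two_ne_zero) |>.mp h7
      have h9 : P 0 = 0 := (t_BR1 H D (P 0) h0.1 1 (one_mem D.M)).2.2 h8
      show LinearMap.range (P 0 : H →ₗ[ℂ] H) = ⊥
      rw [h9]
      exact LinearMap.range_zero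
    · -- `P 1 = 1`
      have h0 := hP 1 zero_le_one le_rfl
      have h8 : (1 - P 1) D.Ω = 0 := by
        have h9 : inner ℂ ((1 - P 1) D.Ω) ((1 - P 1) D.Ω) = (0 : ℂ) := by
          have h10 : star (1 - P 1) * (1 - P 1) = 1 - P 1 := by
            rw [star_sub, star_one, h0.2.1, sub_mul, one_mul, mul_sub, mul_one, h0.2.2.1, sub_self,
              sub_zero]
          have h11 : inner ℂ ((1 - P 1) D.Ω) ((1 - P 1) D.Ω) =
              inner ℂ D.Ω ((star (1 - P 1) * (1 - P 1)) D.Ω) := by
            rw [ContinuousLinearMap.star_eq_adjoint]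
            exact (ContinuousLinearMap.adjoint_inner_right _ _ _).symm
          rw [h11, h10]
          have h12 : (1 - P 1) D.Ω = D.Ω - P 1 D.Ω := rfl
          rw [h12, inner_sub_right, hΩ, h0.2.2.2.1]
          norm_num
        exact inner_self_eq_zero.mp h9
      have h9 : 1 - P 1 = 0 :=
        (t_BR1 H D (1 - P 1) (sub_mem (one_mem _) h0.1) 1 (one_mem D.M)).2.2 h8
      have h10 : P 1 = 1 := (sub_eq_zero.mp h9).symm
      show LinearMap.range (P 1 : H →ₗ[ℂ] H) = ⊤
      rw [h10]
      exact LinearMap.range_id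
    · intro s t h0 hst h1
      refine lt_of_le_of_ne (hle s t h0 hst.le h1) ?_
      intro h
      exact absurd (heq s t h0 hst.le h1 h.ge) (not_le.mpr hst)
    · intro t h0 h1
      refine ⟨?_, ?_⟩
      · have h3 : ((LinearMap.range (P t : H →ₗ[ℂ] H) : Submodule ℂ H) : Set H) =
            {v | P t v = v} := by
          ext v; exact hmem t h0 h1 v
        show IsClosed ((LinearMap.range (P t : H →ₗ[ℂ] H) : Submodule ℂ H) : Set H)
        rw [h3]
        exact isClosed_eq (P t).continuous continuous_id
      · rintro S hS v ⟨w, rfl⟩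
        exact ⟨S (P t w), (happ ((hP t h0 h1).2.2.2.2 S hS) w).symm⟩
  · intro t h0 h1
    have h := hP t h0 h1
    refine ⟨h.1, ⟨h.2.2.1, h.2.1⟩, ?_, h.2.2.2.1⟩
    intro v
    constructor
    · rintro ⟨w, rfl⟩
      exact congrArg (fun X : H →L[ℂ] H => X w) h.2.2.1
    · intro hv; exact ⟨v, hv⟩

end Pool.Agent.Results.MP_5ac32f_an.HyperinvariantNests
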