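import Pool.Agent.H109F.LK.Moeb

/-!
# Compact solutions of bilinear relations

Let `T` be **any** bounded operator on a complex Banach space, `P` and `Q` two linearly independent
operators in the bicommutant of `T` (for instance `P = T`, `Q = 1` if `T` is not a scalar, or rational functions
of `T`) and `K ≠ 0` a compact operator with

  `a P K P + b P K Q + c Q K P + d Q K Q = 0`,   `(a, b, c, d) ≠ 0`.

Then `T` has a nontrivial closed hyperinvariant subspace. For `Q = 1` the relation is `T K = K φ(T)` with a
Möbius transformation `φ` (or it splits). Lomonosov's theorem is the relation `T K - K T = 0`, and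
`T K = λ K T` is the theorem of Brown and of Kim, Moore and Pearcy. New are the loxodromic and elliptic `φ` with
both fixed points in the spectrum, and the parabolic ones, `T K - K T = c T K T` and `T K - K T = c K`, without any
assumption on the spectrum of `T`, and relations between two functions of `T`.

Proof. Suppose that `T` has no hyperinvariant subspace. Then the elements `≠ 0` of `{T}''` are injective with
dense range. By the Jordan normal form of a Möbius transformation there are three cases (for another basis
`P, Q` of the same space): the relation is `P' K Q' = 0`, which is impossible; or `P K Q = λ Q K P` with `λ ≠ 0`;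
or `P K Q = (Q + P) K P`. By Lomonosov's lemma there is `A ∈ {T}'` such that `A K Q` (or `A K P`) has the
eigenvalue `1`. Put `C = A K`; it satisfies the same relation.
* `P C Q = λ Q C P`: `C P` maps the eigenvectors of `C Q` with eigenvalue `μ` to eigenvectors with eigenvalue
  `μ / λ`. If `λ` is not a root of unity, this contradicts the compactness (let `|λ| ≤ 1`). If `λ ^ n = 1`, the
  operator `N = C P (C Q) ^ (n - 1)` maps the finite-dimensional space `E = ker ((C Q) ^ n - 1)` to itself and
  `Q N = P / λ` on `E`. If `N z = κ z`, then `(P - λ κ Q) z = 0`, a contradiction.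
* `P C Q = (Q + P) C P`: with `Q_t = Q + t P` we have `P C Q_t = Q_{t+1} C P`, so `C Q_t` and `C Q_{t+1}` have the
  same nonzero eigenvalues (`C P` maps eigenvectors to eigenvectors). `log r(C Q_t)` is subharmonic, has period
  one and grows at most logarithmically; so it is constant and `r(C P) = lim r(C Q_t) / |t| = 0`. But `C P` has the
  eigenvalue one.
-/

set_option autoImplicit false

namespace Pool.Agent.Results.MP_5ac32f_an.MoebiusRelation

/-- `T` has a closed subspace, neither `{0}` nor the whole space, which is invariant under every
bounded operator commuting with `T` -/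
def HasHyperinvariant {X : Type} [NormedAddCommGroup X] [NormedSpace ℂ X] (T : X →L[ℂ] X) : Prop :=
  ∃ V : Submodule ℂ X, IsClosed (V : Set X) ∧ V ≠ ⊥ ∧ V ≠ ⊤ ∧
    ∀ Q : X →L[ℂ] X, Q * T = T * Q → ∀ v ∈ V, Q v ∈ V

/-- `P` commutes with every bounded operator commuting with `T` -/
def InBicommutant {X : Type} [NormedAddCommGroup X] [NormedSpace ℂ X] (T P : X →L[ℂ] X) : Prop :=
  ∀ R : X →L[ℂ] X, R * T = T * R → R * P = P * R

/-- Let `T` be a bounded operator on a complex Banach space, `P` and `Q` linearly independent operators in
the bicommutant of `T`, and `K ≠ 0` a compact operator with `a P K P + b P K Q + c Q K P + d Q K Q = 0`, where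
`a, b, c, d` are not all zero. Then `T` has a nontrivial closed hyperinvariant subspace. -/
theorem result {X : Type} [NormedAddCommGroup X] [NormedSpace ℂ X] [CompleteSpace X]
    (T P Q K : X →L[ℂ] X) (hP : InBicommutant T P) (hQ : InBicommutant T Q)
    (hPQ : LinearIndependent ℂ ![P, Q]) (hK0 : K ≠ 0) (hK : IsCompactOperator K) (a b c d : ℂ)
    (h0 : ¬ (a = 0 ∧ b = 0 ∧ c = 0 ∧ d = 0))
    (h : a • (P * K * P) + b • (P * K * Q) + c • (Q * K * P) + d • (Q * K * Q) = 0) :
    HasHyperinvariant T := by
  by_contra hcon
  exact hK0 (Pool.Agent.H109F.LK.bilinear hcon hP hQ (LinearIndependent.pair_iff.1 hPQ) hK h0 h)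

end Pool.Agent.Results.MP_5ac32f_an.MoebiusRelation
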