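import Pool.Agent.H875.QN.Main

/-!
# Typical compact perturbations of operators with totally disconnected spectrum

Let `A` be a bounded operator with totally disconnected spectrum (for instance quasinilpotent) on an
infinite dimensional complex Banach space `X`. There is a closed set `E` of compact operators such that
`A + K` has a nontrivial closed hyperinvariant subspace for every compact `K` outside of `E`, and `E` is
small: for all compact operators `K₀`, `K₁` with `K₁` not quasinilpotent the set of all complex `κ` with
`K₀ + κ K₁ ∈ E` is closed, has Hausdorff dimension zero and is a null set for every measure with locally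
bounded logarithmic potential (so it has capacity zero, and it is a null set for the area and for the
length on every line). In particular `E` has no interior in the space of compact operators. If `K₁` is
quasinilpotent, the same is true of the set of these `κ`, or it is the whole plane.

Whether quasinilpotent operators on reflexive spaces have nontrivial invariant subspaces is open. For
a quasinilpotent `A` the theorem says that `A + κ K` has a hyperinvariant subspace for all `κ` outside of a
closed set of dimension zero, for every compact `K` with a nonzero eigenvalue, and that this holds along
every line in the direction of `K`.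

Proof. If `A + K` has no hyperinvariant subspace, its spectrum is a point (Fredholm alternative, Riesz
projections), and this point `c` is the same for all such `K`, since a compact perturbation of a
quasinilpotent operator is not invertible. Let `E` be the set of all compact `K` with `A - c + K`
quasinilpotent. Put `T = A - c + K₀`. The polynomials `κ ↦ φ ((T + κ K₁)^m)` of degree at most `m`, `φ` a
functional of norm one, are at most `ε^m` on sets of measure at least one half of `m({κ : K₀ + κ K₁ ∈ E})`;
integrating the logarithms of the factors `|κ - ρ|` one gets the bound `(C ε)^m` for their values at all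
points and for their leading coefficients `φ (K₁^m)`, with `C` independent of `ε` and `m`. So if the set is not
a null set, all `T + κ K₁` and `K₁` are quasinilpotent. For the dimension one uses Frostman measures on the
compact parts of the set; this needs that `E` is closed. Let `K` be the limit of elements of `E`, and let
`l ≠ 0` be in the spectrum of `A - c + K`. The spectrum is discrete outside of `0` (Riesz' argument, applied
to a high power), so there is a circle around `l`, not around `0`, in the resolvent set. On it the
resolvents of the approximating operators are uniformly bounded, and by the maximum principle so they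
are at `l`, which is a contradiction.

Frostman's lemma and the Riesz projections are from the starting library (`TH966.HD`, `R283.Riesz`).
-/

set_option autoImplicit false

open MeasureTheory Metric
open scoped ENNReal NNReal

namespace Pool.Agent.Results.MP_5ac32f_an.TypicalCompactPerturbations

/-- The measure `m` has no atoms, and on every disc `|t| < R` it is finite and
`∫ log⁺ (1 / |t - s|) dm(t)` is bounded in `s ∈ ℂ`. -/
def BoundedPotential (m : Measure ℂ) : Prop :=
  (∀ s : ℂ, m {s} = 0) ∧
  ∀ R : ℝ, m (ball (0:ℂ) R) ≠ ⊤ ∧ ∃ C : ℝ≥0, ∀ s : ℂ,
    ∫⁻ t in ball (0:ℂ) R, ENNReal.ofReal (Real.posLog ‖t - s‖⁻¹) ∂m ≤ C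

/-- `T` has a closed subspace, neither `{0}` nor the whole space, which is invariant under every
bounded operator commuting with `T`. -/
def HasHyperinvariant {X : Type} [NormedAddCommGroup X] [NormedSpace ℂ X] (T : X →L[ℂ] X) : Prop :=
  ∃ V : Submodule ℂ X, IsClosed (V : Set X) ∧ V ≠ ⊥ ∧ V ≠ ⊤ ∧
    ∀ Q : X →L[ℂ] X, Q * T = T * Q → ∀ v ∈ V, Q v ∈ V

/-- The set `S` of complex numbers is closed, has Hausdorff dimension zero, and is a null set for
every measure with locally bounded logarithmic potential. -/
def Small (S : Set ℂ) : Prop :=
  IsClosed S ∧ dimH S = 0 ∧ ∀ m : Measure ℂ, BoundedPotential m → m S = 0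

/-- Let `A` be a bounded operator with totally disconnected spectrum on an infinite dimensional complex
Banach space. There is a closed set `E` of operators such that `A + K` has a nontrivial closed
hyperinvariant subspace for all compact `K ∉ E` and such that for all compact `K₀`, `K₁` the set of the
`κ` with `K₀ + κ K₁ ∈ E` is small, except that it may be the whole plane if `K₁` is quasinilpotent. -/
theorem result {X : Type} [NormedAddCommGroup X] [NormedSpace ℂ X] [CompleteSpace X]
    (hX : ¬ FiniteDimensional ℂ X) (A : X →L[ℂ] X) (hA : IsTotallyDisconnected (spectrum ℂ A)) :
    ∃ E : Set (X →L[ℂ] X), IsClosed E ∧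
      (∀ K : X →L[ℂ] X, IsCompactOperator K → K ∉ E → HasHyperinvariant (A + K)) ∧
      ∀ K₀ K₁ : X →L[ℂ] X, IsCompactOperator K₀ → IsCompactOperator K₁ →
        (spectrum ℂ K₁ = {0} ∧ ∀ κ : ℂ, K₀ + κ • K₁ ∈ E) ∨ Small {κ : ℂ | K₀ + κ • K₁ ∈ E} :=
  Pool.Agent.H875.QN.typical hX A hA

end Pool.Agent.Results.MP_5ac32f_an.TypicalCompactPerturbations
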