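import Pool.Agent.H850.TY.Main

/-!
# MP_5ac32f_an: hyperinvariant subspaces of typical quasinilpotent operators in McDuff algebras

Let `M` be a finite von Neumann algebra on a Hilbert space `H` with a faithful normal tracial state
`τ` and with the McDuff property (every operator of `M` almost commutes, in the 2-norm, with
systems of `m × m` matrix units of `M`, for every `m`; for instance `M = N ⊗ R` with `R` the
hyperfinite II_1 factor and `N` any finite von Neumann algebra).  Let `QC M τ` be the set of the
contractions of `M` that are quasinilpotent in measure (`‖T^n q‖ ≤ r^n` for a projection `q` of trace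
at least `1 - r`, for all `r > 0` and suitable `n`): the operators whose Brown measure is the point
mass at `0`, for which the hyperinvariant subspace problem is open also relative to `M`.  With the
metric of the 2-norm it is a Baire space.

For a typical `T` in `QC M τ` (all `T` outside a meager set): `T` is injective, has dense range, and
there is a closed subspace of `H` invariant under *every* bounded operator on `H` commuting with `T`,
whose projection lies in `M` and has trace `1/2`.

Proof.  The category argument and its parts (dense nilpotent-type approximation, a perturbation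
`T + κ (J + w h)` by a shift whose powers have a large gap, graph projections of powers) are the
starting library `Pool.Agent.H952R2.TY` (paper proof: helper952; never handed in there), where only
operators of `M` commuting with `T` are treated.  New here (`Pool.Agent.H850.TY`): geometric
convergence in the 2-norm implies strong convergence on `H`, so the projections on the graphs of
`c_k T^{j_k}` tend strongly to `E ⊕ E`; if `S` is a bounded operator on `H` which commutes with `T`,
then `S ⊕ S` leaves these graphs invariant, and in the limit `S E = E S E`.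
-/

set_option autoImplicit false
open Filter Topology
open scoped ComplexOrder InnerProductSpace

namespace Pool.Agent.Results.MP_5ac32f_an.TypicalInMcDuffAlgebras

open Pool.Agent.H952R2.TY

variable {H : Type} [NormedAddCommGroup H] [InnerProductSpace ℂ H] [CompleteSpace H]

/-- The restriction of `τ` to `M` is a faithful normal tracial state (normality in the form:
sequential continuity on the unit ball of `M` for the strong operator topology). -/
structure FaithfulNormalTrace (M : VonNeumannAlgebra H) (τ : (H →L[ℂ] H) →ₗ[ℂ] ℂ) : Prop where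
  one : τ 1 = 1
  pos : ∀ x ∈ M, 0 ≤ τ (star x * x)
  faithful : ∀ x ∈ M, τ (star x * x) = 0 → x = 0
  trace : ∀ x ∈ M, ∀ y ∈ M, τ (x * y) = τ (y * x)
  normal : ∀ (x : ℕ → (H →L[ℂ] H)) (y : H →L[ℂ] H), (∀ n, x n ∈ M) → (∀ n, ‖x n‖ ≤ 1) → y ∈ M →
    (∀ v, Tendsto (fun n => x n v) atTop (𝓝 (y v))) → Tendsto (fun n => τ (x n)) atTop (𝓝 (τ y))

/-- The McDuff property: every operator of `M` almost commutes, in the 2-norm, with `m × m` matrix
units of `M`, for every `m ≥ 1`. -/
def McDuff (M : VonNeumannAlgebra H) (τ : (H →L[ℂ] H) →ₗ[ℂ] ℂ) : Prop :=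
  ∀ m : ℕ, 1 ≤ m → ∀ T ∈ M, ∀ ε : ℝ, 0 < ε → ∃ e : Fin m → Fin m → (H →L[ℂ] H),
    (∀ i j, e i j ∈ M) ∧ (∀ i j k l, e i j * e k l = if j = k then e i l else 0) ∧
    (∀ i j, star (e i j) = e j i) ∧ ∑ i, e i i = 1 ∧
    ∀ i j, (τ (star (e i j * T - T * e i j) * (e i j * T - T * e i j))).re ≤ ε

/-- There is a closed subspace of `H`, neither `{0}` nor `H`, which is invariant under every bounded
operator on `H` commuting with `T`; the orthogonal projection onto it lies in `M` and has trace
`1/2`. -/
def Hyperinvariant (M : VonNeumannAlgebra H) (τ : (H →L[ℂ] H) →ₗ[ℂ] ℂ) (T : H →L[ℂ] H) : Prop :=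
  ∃ V : Submodule ℂ H, IsClosed (V : Set H) ∧ V ≠ ⊥ ∧ V ≠ ⊤ ∧
    (∀ S : H →L[ℂ] H, S * T = T * S → ∀ v ∈ V, S v ∈ V) ∧
    ∃ E ∈ M, IsStarProjection E ∧ τ E = 1 / 2 ∧ ∀ v, v ∈ V ↔ E v = v

/-- **Typical quasinilpotent operators of a McDuff algebra have hyperinvariant subspaces in `H`.** -/
theorem result (H : Type) [NormedAddCommGroup H] [InnerProductSpace ℂ H] [CompleteSpace H]
    (M : VonNeumannAlgebra H) (τ : (H →L[ℂ] H) →ₗ[ℂ] ℂ) (hτ : FaithfulNormalTrace M τ)
    (hM : McDuff M τ) :
    Nonempty (QC M τ) ∧ ∃ _ : MetricSpace (QC M τ),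
      (∀ S T : QC M τ,
        dist S T = Real.sqrt (τ (star (S.op - T.op) * (S.op - T.op))).re) ∧
      BaireSpace (QC M τ) ∧
      {T : QC M τ | Function.Injective T.op ∧ DenseRange T.op ∧ Hyperinvariant M τ T.op} ∈
        residual (QC M τ) := by
  have hτ' : Pool.H711R2.IsNormalTrace M τ := ⟨hτ.one, hτ.pos, hτ.trace, hτ.normal⟩
  have hMcD : McD M τ := by
    intro m hm T hT ε hε
    obtain ⟨e, a1, a2, a3, a4, a5⟩ := hM m hm T hT ε hε
    exact ⟨e, ⟨a2, a3, a4⟩, a1, a5⟩
  refine ⟨⟨⟨0, zero_mem _, by simp, ?_⟩⟩, ?_⟩
  · intro r hr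
    refine ⟨1, le_refl _, 1, one_mem _, IsStarProjection.one _, ?_, ?_⟩
    · rw [hτ.one, Complex.one_re]; linarith
    · rw [pow_one, zero_mul, norm_zero]; positivity
  · obtain ⟨mm, hd, hB, hR⟩ := Pool.Agent.H850.TY.main M τ hτ' hτ.faithful hMcD
    refine ⟨mm, hd, hB, Filter.mem_of_superset hR ?_⟩
    rintro T ⟨hinj, hdense, E, hEM, hEs, hEi, hEt, hE⟩
    have happ : ∀ {a b : H →L[ℂ] H}, a = b → ∀ v, a v = b v := fun h v => by rw [h]
    have hEE : ∀ v, E (E v) = E v := fun v => happ hEi v
    refine ⟨?_, hdense, LinearMap.range (E : H →ₗ[ℂ] H), ?_, ?_, ?_, ?_, E, hEM, ⟨hEi, hEs⟩, hEt, ?_⟩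
    · intro u v huv
      have h1 : T.op (u - v) = 0 := by rw [map_sub, huv, sub_self]
      exact sub_eq_zero.mp (hinj _ h1)
    · have h1 : ((LinearMap.range (E : H →ₗ[ℂ] H) : Submodule ℂ H) : Set H) = {v | E v = v} := by
        ext v
        constructor
        · rintro ⟨w, rfl⟩; exact hEE w
        · intro hv; exact ⟨v, hv⟩
      rw [h1]
      exact isClosed_eq E.continuous continuous_id
    · intro h
      have h1 : E = 0 := by
        ext v
        have h2 : E v ∈ LinearMap.range (E : H →ₗ[ℂ] H) := ⟨v, rfl⟩
        rw [h] at h2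
        simpa using h2
      rw [h1, map_zero] at hEt
      norm_num at hEt
    · intro h
      have h1 : E = 1 := by
        ext v
        have h2 : v ∈ LinearMap.range (E : H →ₗ[ℂ] H) := by rw [h]; trivial
        obtain ⟨w, rfl⟩ := h2
        exact hEE w
      rw [h1, hτ.one] at hEt
      norm_num at hEt
    · rintro S hS v ⟨w, rfl⟩
      refine ⟨S (E w), ?_⟩
      exact (happ (hE S hS) w).symm
    · intro v
      constructor
      · rintro ⟨w, rfl⟩; exact hEE w
      · intro hv; exact ⟨v, hv⟩

end Pool.Agent.Results.MP_5ac32f_an.TypicalInMcDuffAlgebras
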